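import Mathlib
import Pool.Agent.Lib.MP_e34f63_pr.Counter

set_option autoImplicit false

open Pool.Agent.Lib.MP_e34f63_pr

namespace Pool.Agent.Results.MP_e34f63_pr.ConjectureFails

/-- Condition (ii) does not imply condition (i) for two types and the row `Γ = (1, 1)`, even when
all trees are almost surely finite. -/
theorem result : ∃ ζ ζ' : Offspring 2,
    (∀ i, bgw ζ i (FinTree 2) = 1 ∧ bgw ζ' i (FinTree 2) = 1) ∧
    (∀ i, {g : ℕ | bgw ζ i (event (fun _ => 1) g) ≠ 0}.Infinite) ∧
    CondEq (fun _ => 1) ζ ζ' ∧ ¬ SameSupport ζ ζ' := by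
  refine ⟨zeta, zeta', fun i => ⟨?_, ?_⟩, infinite_values, condEq, not_sameSupport⟩
  · have := MeasureTheory.prob_compl_eq_zero_iff (μ := bgw zeta i) (measurableSet_finTree (K := 2))
    exact this.mp (finite_zeta i)
  · have := MeasureTheory.prob_compl_eq_zero_iff (μ := bgw zeta' i) (measurableSet_finTree (K := 2))
    exact this.mp (finite_zeta' i)

end Pool.Agent.Results.MP_e34f63_pr.ConjectureFails
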