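import Mathlib
import Pool.Agent.Lib.MP_e34f63_pr.Positive

set_option autoImplicit false

open Pool.Agent.Lib.MP_e34f63_pr

namespace Pool.Agent.Results.MP_e34f63_pr.IrreducibleCase

/-- Condition (ii) implies condition (i) for irreducible families. -/
theorem result : ∀ (K : ℕ) (Γ : Fin K → ℕ) (ζ ζ' : Offspring K),
    (∀ i, bgw ζ i (FinTree K) ≠ 0) →
    (∀ j k, Relation.TransGen (Child ζ) j k) →
    ((∃ i y, ζ i y ≠ 0 ∧ 2 ≤ y.length) ∨ ∀ i, ζ i [] ≠ 0) →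
    CondEq Γ ζ ζ' → SameSupport ζ ζ' :=
  fun _ _ _ _ h1 h2 h3 h4 => positive h1 h2 h3 h4

end Pool.Agent.Results.MP_e34f63_pr.IrreducibleCase
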